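import Mathlib

/-!
# A CIS graph with `α ω < |V|`

A graph is a CIS graph if every maximal clique meets every maximal stable set.

The graph: take a 5-cycle `0, 1, 2, 3, 4`, replace every vertex by three disjoint triangles (nine
vertices), and for every edge `k (k+1)` of the 5-cycle add one vertex adjacent exactly to the
eighteen vertices which replace `k` and `k + 1`. It has `5 * 9 + 5 = 50` vertices.

Stable sets: if the stable set meets the blobs `i ∈ I`, then `I` is stable in the 5-cycle, so
`|I| ≤ 2`, and it contains at most `3 |I|` vertices of the blobs and at most `5 - 2 |I|` of the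
five added vertices; hence `α = 7`. Cliques: at most two blobs, three vertices in each of them and at
most one added vertex; hence `ω = 7`. So `α ω = 49 < 50`.
-/

set_option autoImplicit false

namespace Pool.Agent.Results.MP_703660_co.ProductTooSmall

open Finset

/-- every maximal clique meets every maximal stable set -/
def IsCIS {V : Type} (G : SimpleGraph V) : Prop :=
  ∀ C S : Set V, Maximal G.IsClique C → Maximal G.IsIndepSet S → (C ∩ S).Nonempty

/-- the vertices: `blob i a b` with `i ∈ Z/5` and `a, b ∈ Z/3` (the vertex `b` of the triangle `a`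
replacing the vertex `i` of the 5-cycle), and the five added vertices `k` -/
abbrev W : Type := (Fin 5 × Fin 3 × Fin 3) ⊕ Fin 5

lemma ne_succ (i : Fin 5) : i ≠ i + 1 := by
  revert i
  decide

/-- adjacency -/
def adj : W → W → Bool
  | Sum.inl (i, a, b), Sum.inl (j, c, d) =>
      decide (j = i + 1) || decide (i = j + 1) || (decide (i = j) && decide (a = c) && decide (b ≠ d))
  | Sum.inl (i, _, _), Sum.inr k => decide (i = k) || decide (i = k + 1)
  | Sum.inr k, Sum.inl (i, _, _) => decide (i = k) || decide (i = k + 1)
  | Sum.inr _, Sum.inr _ => false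

/-- the graph -/
def G : SimpleGraph W where
  Adj x y := adj x y = true
  symm := ⟨by
    rintro (⟨i, a, b⟩ | k) (⟨j, c, d⟩ | l) h
    · simp only [adj, Bool.or_eq_true, decide_eq_true_eq, Bool.and_eq_true] at h ⊢
      rcases h with (h | h) | ⟨⟨h1, h2⟩, h3⟩
      · exact Or.inl (Or.inr h)
      · exact Or.inl (Or.inl h)
      · exact Or.inr ⟨⟨h1.symm, h2.symm⟩, fun h => h3 h.symm⟩
    · exact h
    · exact h
    · exact h⟩
  loopless := ⟨by
    rintro (⟨i, a, b⟩ | k) h
    · simp only [adj, Bool.or_eq_true, decide_eq_true_eq, Bool.and_eq_true] at h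
      rcases h with (h | h) | ⟨_, h3⟩
      · exact ne_succ i h
      · exact ne_succ i h
      · exact h3 rfl
    · exact absurd h (by simp [adj])⟩

lemma adj_ll {i j : Fin 5} {a b c d : Fin 3} : G.Adj (Sum.inl (i, a, b)) (Sum.inl (j, c, d)) ↔
    j = i + 1 ∨ i = j + 1 ∨ (i = j ∧ a = c ∧ b ≠ d) := by
  show adj _ _ = true ↔ _
  simp only [adj, Bool.or_eq_true, decide_eq_true_eq, Bool.and_eq_true]
  tauto

lemma adj_lr {i k : Fin 5} {a b : Fin 3} : G.Adj (Sum.inl (i, a, b)) (Sum.inr k) ↔
    i = k ∨ i = k + 1 := by
  show adj _ _ = true ↔ _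
  simp only [adj, Bool.or_eq_true, decide_eq_true_eq]

lemma adj_rl {i k : Fin 5} {a b : Fin 3} : G.Adj (Sum.inr k) (Sum.inl (i, a, b)) ↔
    i = k ∨ i = k + 1 := by
  show adj _ _ = true ↔ _
  simp only [adj, Bool.or_eq_true, decide_eq_true_eq]

lemma adj_rr {k l : Fin 5} : ¬ G.Adj (Sum.inr k) (Sum.inr l) := by
  show ¬ (adj _ _ = true)
  simp [adj]

/-- Adding a vertex adjacent to all other elements of a maximal clique does not enlarge it. -/
lemma mem_of_clique {C : Set W} (hC : Maximal G.IsClique C) (x : W)
    (h : ∀ y ∈ C, y ≠ x → G.Adj x y) : x ∈ C := by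
  have h1 : G.IsClique (insert x C) := by
    rw [SimpleGraph.isClique_insert]
    exact ⟨hC.1, fun y hy hne => h y hy hne.symm⟩
  exact hC.2 h1 (Set.subset_insert x C) (Set.mem_insert x C)

lemma mem_of_stable {S : Set W} (hS : Maximal G.IsIndepSet S) (x : W)
    (h : ∀ y ∈ S, y ≠ x → ¬ G.Adj x y) : x ∈ S := by
  have h1 : G.IsIndepSet (insert x S) := by
    intro y hy z hz hyz
    rcases hy with rfl | hy
    · rcases hz with rfl | hz
      · exact absurd rfl hyz
      · exact h z hz hyz.symm
    · rcases hz with rfl | hz
      · exact fun hh => h y hy hyz hh.symm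
      · exact hS.1 hy hz hyz
  exact hS.2 h1 (Set.subset_insert x S) (Set.mem_insert x S)

/-- The blobs met by a clique are `k` and `k + 1` for some `k`. -/
lemma clique_blobs (I : Finset (Fin 5)) (h : ∀ i ∈ I, ∀ j ∈ I, i = j ∨ j = i + 1 ∨ i = j + 1) :
    ∃ k : Fin 5, ∀ i ∈ I, i = k ∨ i = k + 1 := by
  revert I
  decide

lemma exists_added {C : Set W} (hC : Maximal G.IsClique C) : ∃ k, Sum.inr k ∈ C := by
  classical
  by_contra hno
  push Not at hno
  obtain ⟨k, hk⟩ := clique_blobs (univ.filter fun i => ∃ a b, (Sum.inl (i, a, b) : W) ∈ C) (by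
    intro i hi j hj
    simp only [mem_filter, mem_univ, true_and] at hi hj
    obtain ⟨a, b, h1⟩ := hi
    obtain ⟨c, d, h2⟩ := hj
    by_cases hij : i = j
    · exact Or.inl hij
    · have h3 := hC.1 h1 h2 (by
        intro h
        simp only [Sum.inl.injEq, Prod.mk.injEq] at h
        exact hij h.1)
      rw [adj_ll] at h3
      rcases h3 with h3 | h3 | h3
      · exact Or.inr (Or.inl h3)
      · exact Or.inr (Or.inr h3)
      · exact Or.inl h3.1)
  apply hno k
  apply mem_of_clique hC
  rintro (⟨i, a, b⟩ | l) hy hne
  · rw [adj_rl]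
    exact hk i (by simp only [mem_filter, mem_univ, true_and]; exact ⟨a, b, hy⟩)
  · exact absurd hy (hno l)

/-- If the added vertex `k` is in the maximal clique `C` and `i` is `k` or `k + 1`, then `C` contains
one of the three triangles of the blob `i`. -/
lemma triangle_sub {C : Set W} (hC : Maximal G.IsClique C) {k i : Fin 5} (hk : Sum.inr k ∈ C)
    (hi : i = k ∨ i = k + 1) : ∃ a, ∀ b, (Sum.inl (i, a, b) : W) ∈ C := by
  classical
  -- all elements of `C` are in the blobs `k`, `k + 1`, or equal to the added vertex `k`
  have hin : ∀ j c d, (Sum.inl (j, c, d) : W) ∈ C → j = k ∨ j = k + 1 := by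
    intro j c d h
    have := hC.1 hk h (by simp)
    rwa [adj_rl] at this
  have hout : ∀ l, Sum.inr l ∈ C → l = k := by
    intro l h
    by_contra hne
    exact adj_rr (hC.1 h hk (by simpa using hne))
  by_cases hex : ∃ a b, (Sum.inl (i, a, b) : W) ∈ C
  · obtain ⟨a, b₀, h0⟩ := hex
    refine ⟨a, fun b => mem_of_clique hC _ ?_⟩
    rintro (⟨j, c, d⟩ | l) hy hne
    · rw [adj_ll]
      by_cases hij : i = j
      · subst hij
        refine Or.inr (Or.inr ⟨rfl, ?_, ?_⟩)
        · by_contra hac
          have := hC.1 h0 hy (by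
            intro h
            simp only [Sum.inl.injEq, Prod.mk.injEq] at h
            exact hac h.2.1)
          rw [adj_ll] at this
          rcases this with h | h | h
          · exact absurd h (ne_succ i)
          · exact absurd h (ne_succ i)
          · exact hac h.2.1
        · rintro rfl
          apply hne
          have hac : a = c := by
            by_contra hac
            have := hC.1 h0 hy (by
              intro h
              simp only [Sum.inl.injEq, Prod.mk.injEq] at h
              exact hac h.2.1)
            rw [adj_ll] at this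
            rcases this with h | h | h
            · exact absurd h (ne_succ i)
            · exact absurd h (ne_succ i)
            · exact hac h.2.1
          rw [hac]
      · rcases hi with rfl | rfl <;> rcases hin j c d hy with rfl | rfl
        · exact absurd rfl hij
        · exact Or.inl rfl
        · exact Or.inr (Or.inl rfl)
        · exact absurd rfl hij
    · rw [hout l hy, adj_lr]
      exact hi
  · push Not at hex
    refine ⟨0, fun b => absurd (mem_of_clique hC (Sum.inl (i, 0, b)) ?_) (hex 0 b)⟩
    rintro (⟨j, c, d⟩ | l) hy hne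
    · rw [adj_ll]
      have hij : i ≠ j := by
        rintro rfl
        exact hex c d hy
      rcases hi with rfl | rfl <;> rcases hin j c d hy with rfl | rfl
      · exact absurd rfl hij
      · exact Or.inl rfl
      · exact Or.inr (Or.inl rfl)
      · exact absurd rfl hij
    · rw [hout l hy, adj_lr]
      exact hi

theorem isCIS : IsCIS G := by
  intro C S hC hS
  obtain ⟨k, hk⟩ := exists_added hC
  by_cases hkS : Sum.inr k ∈ S
  · exact ⟨_, hk, hkS⟩
  · -- `S` contains a neighbour of the added vertex `k`
    have hex : ∃ i c d, (i = k ∨ i = k + 1) ∧ (Sum.inl (i, c, d) : W) ∈ S := by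
      by_contra hno
      push Not at hno
      apply hkS
      apply mem_of_stable hS
      rintro (⟨j, c, d⟩ | l) hy hne
      · rw [adj_rl]
        intro h
        exact hno j c d h hy
      · exact adj_rr
    obtain ⟨i, c, d, hi, hS1⟩ := hex
    obtain ⟨a, ha⟩ := triangle_sub hC hk hi
    -- `S` contains a vertex of the triangle `a` of the blob `i`
    by_cases hex2 : ∃ b, (Sum.inl (i, a, b) : W) ∈ S
    · obtain ⟨b, hb⟩ := hex2
      exact ⟨_, ha b, hb⟩
    · push Not at hex2
      refine absurd (mem_of_stable hS (Sum.inl (i, a, 0)) ?_) (hex2 0)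
      rintro (⟨j, e, f⟩ | l) hy hne
      · rw [adj_ll]
        intro h
        have hne' : (Sum.inl (i, c, d) : W) ≠ Sum.inl (j, e, f) → ¬ (j = i + 1 ∨ i = j + 1) := by
          intro hn hh
          apply hS.1 hS1 hy hn
          rw [adj_ll]
          rcases hh with hh | hh
          · exact Or.inl hh
          · exact Or.inr (Or.inl hh)
        have hij : (j = i + 1 ∨ i = j + 1) → i ≠ j := by
          rintro (h | h) rfl
          · exact absurd h (ne_succ i)
          · exact absurd h (ne_succ i)
        rcases h with h | h | ⟨rfl, rfl, _⟩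
        · exact hne' (fun hh => hij (Or.inl h) (by
            simp only [Sum.inl.injEq, Prod.mk.injEq] at hh; exact hh.1)) (Or.inl h)
        · exact hne' (fun hh => hij (Or.inr h) (by
            simp only [Sum.inl.injEq, Prod.mk.injEq] at hh; exact hh.1)) (Or.inr h)
        · exact hex2 f hy
      · rw [adj_lr]
        intro h
        apply hS.1 hS1 hy (by simp)
        rw [adj_lr]
        exact h

/-- the number of elements of a finite set of vertices, by blobs -/
lemma card_split (s : Finset W) :
    s.card = (∑ i : Fin 5, (s.filter fun x => ∃ a b, x = Sum.inl (i, a, b)).card) +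
      (univ.filter fun k : Fin 5 => (Sum.inr k : W) ∈ s).card := by
  classical
  have h1 : s.card = (s.filter fun x => ∃ i a b, x = Sum.inl (i, a, b)).card +
      (s.filter fun x => ¬ ∃ i a b, x = Sum.inl (i, a, b)).card :=
    (card_filter_add_card_filter_not _).symm
  have h2 : (s.filter fun x => ∃ i a b, x = Sum.inl (i, a, b)) =
      univ.biUnion fun i : Fin 5 => s.filter fun x => ∃ a b, x = Sum.inl (i, a, b) := by
    ext x
    simp only [mem_filter, mem_biUnion, mem_univ, true_and]
    constructor
    · rintro ⟨h, i, a, b, rfl⟩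
      exact ⟨i, h, a, b, rfl⟩
    · rintro ⟨i, h, a, b, rfl⟩
      exact ⟨h, i, a, b, rfl⟩
  have h3 : (s.filter fun x => ¬ ∃ i a b, x = Sum.inl (i, a, b)) =
      (univ.filter fun k : Fin 5 => (Sum.inr k : W) ∈ s).map
        ⟨Sum.inr, Sum.inr_injective⟩ := by
    ext x
    simp only [mem_filter, mem_map, mem_univ, true_and, Function.Embedding.coeFn_mk]
    constructor
    · rintro ⟨h, h'⟩
      rcases x with ⟨i, a, b⟩ | k
      · exact absurd ⟨i, a, b, rfl⟩ h'
      · exact ⟨k, h, rfl⟩
    · rintro ⟨k, h, rfl⟩
      refine ⟨h, ?_⟩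
      rintro ⟨i, a, b, h⟩
      exact absurd h (by simp)
  rw [h1, h2, h3, card_map, card_biUnion]
  intro i _ j _ hij
  rw [Function.onFun, disjoint_left]
  intro x hx hx'
  simp only [mem_filter] at hx hx'
  obtain ⟨-, a, b, rfl⟩ := hx
  obtain ⟨-, c, d, h⟩ := hx'
  simp only [Sum.inl.injEq, Prod.mk.injEq] at h
  exact hij h.1

lemma card_stable {s : Finset W} (hs : G.IsIndepSet (s : Set W)) : s.card ≤ 7 := by
  classical
  rw [card_split s]
  set I : Finset (Fin 5) := univ.filter fun i => ∃ a b, (Sum.inl (i, a, b) : W) ∈ s with hI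
  have key : ∀ i : Fin 5, (s.filter fun x => ∃ a b, x = Sum.inl (i, a, b)).card ≤
      if i ∈ I then 3 else 0 := by
    intro i
    by_cases hi : i ∈ I
    · rw [if_pos hi]
      have : (s.filter fun x => ∃ a b, x = Sum.inl (i, a, b)).card ≤ (univ : Finset (Fin 3)).card := by
        apply card_le_card_of_injOn
          (fun x => match x with
            | Sum.inl (_, a, _) => a
            | Sum.inr _ => 0)
        · intro x _
          exact mem_coe.2 (mem_univ _)
        · rintro x hx y hy hxy
          simp only [coe_filter, Set.mem_ofPred_eq] at hx hy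
          obtain ⟨hx, a, b, rfl⟩ := hx
          obtain ⟨hy, c, d, rfl⟩ := hy
          change a = c at hxy
          subst hxy
          by_contra hne
          apply hs hx hy hne
          rw [adj_ll]
          refine Or.inr (Or.inr ⟨rfl, rfl, ?_⟩)
          rintro rfl
          exact hne rfl
      simpa using this
    · rw [if_neg hi]
      rw [Nat.le_zero, card_eq_zero, filter_eq_empty_iff]
      rintro x hx ⟨a, b, rfl⟩
      apply hi
      rw [hI]
      simp only [mem_filter, mem_univ, true_and]
      exact ⟨a, b, hx⟩
  have hstab : ∀ i ∈ I, i + 1 ∉ I := by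
    intro i hi hj
    simp only [hI, mem_filter, mem_univ, true_and] at hi hj
    obtain ⟨a, b, h1⟩ := hi
    obtain ⟨c, d, h2⟩ := hj
    apply hs h1 h2
    · intro h
      simp only [Sum.inl.injEq, Prod.mk.injEq] at h
      exact ne_succ i h.1
    · rw [adj_ll]
      exact Or.inl rfl
  have hadd : (univ.filter fun k : Fin 5 => (Sum.inr k : W) ∈ s).card ≤
      (univ.filter fun k : Fin 5 => k ∉ I ∧ k + 1 ∉ I).card := by
    apply card_le_card
    intro k hk
    simp only [mem_filter, mem_univ, true_and] at hk ⊢
    constructor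
    · intro h
      simp only [hI, mem_filter, mem_univ, true_and] at h
      obtain ⟨a, b, h⟩ := h
      exact hs hk h (by simp) (adj_rl.2 (Or.inl rfl))
    · intro h
      simp only [hI, mem_filter, mem_univ, true_and] at h
      obtain ⟨a, b, h⟩ := h
      exact hs hk h (by simp) (adj_rl.2 (Or.inr rfl))
  have fin : ∀ I : Finset (Fin 5), (∀ i ∈ I, i + 1 ∉ I) →
      (∑ i : Fin 5, if i ∈ I then 3 else 0) +
        (univ.filter fun k : Fin 5 => k ∉ I ∧ k + 1 ∉ I).card ≤ 7 := by
    decide
  exact (Nat.add_le_add (sum_le_sum fun i _ => key i) hadd).trans (fin I hstab)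

lemma card_clique {s : Finset W} (hs : G.IsClique (s : Set W)) : s.card ≤ 7 := by
  classical
  rw [card_split s]
  set I : Finset (Fin 5) := univ.filter fun i => ∃ a b, (Sum.inl (i, a, b) : W) ∈ s with hI
  have key : ∀ i : Fin 5, (s.filter fun x => ∃ a b, x = Sum.inl (i, a, b)).card ≤
      if i ∈ I then 3 else 0 := by
    intro i
    by_cases hi : i ∈ I
    · rw [if_pos hi]
      have : (s.filter fun x => ∃ a b, x = Sum.inl (i, a, b)).card ≤ (univ : Finset (Fin 3)).card := by
        apply card_le_card_of_injOn
          (fun x => match x with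
            | Sum.inl (_, _, b) => b
            | Sum.inr _ => 0)
        · intro x _
          exact mem_coe.2 (mem_univ _)
        · rintro x hx y hy hxy
          simp only [coe_filter, Set.mem_ofPred_eq] at hx hy
          obtain ⟨hx, a, b, rfl⟩ := hx
          obtain ⟨hy, c, d, rfl⟩ := hy
          change b = d at hxy
          subst hxy
          by_contra hne
          have h1 := hs hx hy hne
          rw [adj_ll] at h1
          rcases h1 with h | h | h
          · exact absurd h (ne_succ i)
          · exact absurd h (ne_succ i)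
          · exact h.2.2 rfl
      simpa using this
    · rw [if_neg hi]
      rw [Nat.le_zero, card_eq_zero, filter_eq_empty_iff]
      rintro x hx ⟨a, b, rfl⟩
      apply hi
      rw [hI]
      simp only [mem_filter, mem_univ, true_and]
      exact ⟨a, b, hx⟩
  have hcl : ∀ i ∈ I, ∀ j ∈ I, i = j ∨ j = i + 1 ∨ i = j + 1 := by
    intro i hi j hj
    simp only [hI, mem_filter, mem_univ, true_and] at hi hj
    obtain ⟨a, b, h1⟩ := hi
    obtain ⟨c, d, h2⟩ := hj
    by_cases hij : i = j
    · exact Or.inl hij
    · have h3 := hs h1 h2 (by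
        intro h
        simp only [Sum.inl.injEq, Prod.mk.injEq] at h
        exact hij h.1)
      rw [adj_ll] at h3
      rcases h3 with h3 | h3 | h3
      · exact Or.inr (Or.inl h3)
      · exact Or.inr (Or.inr h3)
      · exact Or.inl h3.1
  have hadd : (univ.filter fun k : Fin 5 => (Sum.inr k : W) ∈ s).card ≤ 1 := by
    rw [card_le_one]
    intro k hk l hl
    simp only [mem_filter, mem_univ, true_and] at hk hl
    by_contra hne
    exact adj_rr (hs hk hl (by simpa using hne))
  have fin : ∀ I : Finset (Fin 5), (∀ i ∈ I, ∀ j ∈ I, i = j ∨ j = i + 1 ∨ i = j + 1) →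
      (∑ i : Fin 5, if i ∈ I then 3 else 0) ≤ 6 := by
    decide
  have := Nat.add_le_add ((sum_le_sum fun i _ => key i).trans (fin I hcl)) hadd
  simpa using this

/-- There is a finite CIS graph `G` with `α(G) ω(G) < |V(G)|`. -/
theorem result : ∃ (V : Type) (_ : Fintype V) (G : SimpleGraph V),
    IsCIS G ∧ G.indepNum * G.cliqueNum < Fintype.card V := by
  classical
  refine ⟨W, inferInstance, G, isCIS, ?_⟩
  have h1 : G.indepNum ≤ 7 := by
    obtain ⟨s, hs⟩ := G.exists_isNIndepSet_indepNum
    rw [← hs.card_eq]
    exact card_stable hs.isIndepSet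
  have h2 : G.cliqueNum ≤ 7 := by
    obtain ⟨s, hs⟩ := G.exists_isNClique_cliqueNum
    rw [← hs.card_eq]
    exact card_clique hs.isClique
  have h3 : Fintype.card W = 50 := by simp [W]
  rw [h3]
  calc G.indepNum * G.cliqueNum ≤ 7 * 7 := Nat.mul_le_mul h1 h2
    _ < 50 := by norm_num

end Pool.Agent.Results.MP_703660_co.ProductTooSmall
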